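import Mathlib
import Pool.Prelude.Def_F_c31e40fa
import Pool.Agent.Q186.Cusp.Ray

/-!
# The exterior map of the Multibrot sets at the cusp: exact asymptotics

Let `d ≥ 3`, `s = d ^ (- 1 / (d - 1))`, and let `c₀ = s - s ^ d` be the cusp of the main hyperbolic
component of the Multibrot set `M_d` (`z ^ d + c₀` has the parabolic fixed point `s`). With the
constant `κ = π log d √(2 s / (d - 1))`: the ray of angle zero lands at `c₀` with the exact speed
`ψ (e ^ t) - c₀ ∼ (κ / log (1 / t)) ^ 2`; Green's function is at most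
`exp (- (1 - o(1)) κ / √r)` at all points at distance at most `r`, and this is attained on the real
axis; the harmonic measure of the disc of radius `r` is `exp (- (κ + o(1)) / √r)`; and if `M_d` is
locally connected then the modulus of continuity of the parametrization of its boundary is, at the
cusp, at least `(κ ^ 2 - o(1)) / log (1 / t) ^ 2`.
-/

set_option autoImplicit false

open Filter Topology Set Metric MeasureTheory N62a1eb23

namespace Pool.Agent.Results.MP_fcb70f_an.CuspAsymptotics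

open Pool.Agent.H713R2 (IsExteriorMap)

/-- The parabolic fixed point. -/
noncomputable def s (d : ℕ) : ℝ := (d : ℝ) ^ (-(1 : ℝ) / (d - 1))

/-- The cusp. -/
noncomputable def cusp (d : ℕ) : ℝ := s d - s d ^ d

/-- The constant. -/
noncomputable def kappa (d : ℕ) : ℝ := Real.pi * Real.log d * √(2 * s d / (d - 1))

/-- The measure of the set of the angles `θ` in `(0, 2π]` such that the parameter ray of angle `θ`
lands in the open disc of centre `c₀` and radius `r`, that is `2π` times the harmonic measure of this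
disc. -/
noncomputable def harm (ψ : ℂ → ℂ) (c₀ : ℂ) (r : ℝ) : ℝ :=
  (volume {θ : ℝ | θ ∈ Ioc 0 (2 * Real.pi) ∧ ∃ ζ ∈ ball c₀ r,
    Tendsto (fun ρ : ℝ => ψ (ρ * Complex.exp (θ * Complex.I))) (𝓝[>] 1) (𝓝 ζ)}).toReal

/-- `F` is the continuous extension of the exterior map `ψ` to the closed exterior of the unit disc
(it exists if and only if the Multibrot set is locally connected). -/
def Extends (F ψ : ℂ → ℂ) : Prop :=
  ContinuousOn F {w | 1 ≤ ‖w‖} ∧ ∀ w, 1 < ‖w‖ → F w = ψ w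

/-- Let `d ≥ 3`. The number `s d` is a fixed point of `z ^ d + cusp d` of multiplier one, `cusp d` is
a boundary point of the Multibrot set `M_d`, the exterior map `ψ` of `M_d` exists, and

(1) `log (1 / t) ^ 2 * |ψ (e ^ t) - cusp d|` tends to `(kappa d) ^ 2` as `t → 0+`;

(2) for every `δ > 0` there is `r₀ > 0` such that for `0 < r ≤ r₀` and all `w` with `|w| > 1` and
`|ψ w - cusp d| ≤ r` Green's function `log |w|` is at most `exp (- (1 - δ) kappa d / √r)`;

(3) `√r * log (1 / harm (cusp d) r)` tends to `kappa d` as `r → 0+`;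

(4) if `F` is the continuous extension of `ψ` to the closed exterior of the unit disc, then
`F 1 = cusp d`, and for every `δ > 0` there is `t₀ > 0` such that for all `0 < t ≤ t₀` some `ξ` on the
unit circle with `|ξ - 1| ≤ t` has
`|F ξ - F 1| ≥ (1 - δ) (kappa d) ^ 2 / log (1 / t) ^ 2`. -/
theorem result (d : ℕ) (hd3 : 3 ≤ d) :
    (s d ^ d + cusp d = s d ∧ d * s d ^ (d - 1) = 1 ∧ (cusp d : ℂ) ∈ frontier (multibrotSet d)) ∧
    (∃ ψ : ℂ → ℂ, IsExteriorMap (multibrotSet d) ψ) ∧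
    ∀ ψ : ℂ → ℂ, IsExteriorMap (multibrotSet d) ψ →
      Tendsto (fun t : ℝ => Real.log (1 / t) ^ 2 * ‖ψ (Real.exp t : ℝ) - cusp d‖) (𝓝[>] 0)
        (𝓝 (kappa d ^ 2)) ∧
      (∀ δ : ℝ, 0 < δ → ∃ r₀ : ℝ, 0 < r₀ ∧ ∀ r : ℝ, 0 < r → r ≤ r₀ → ∀ w : ℂ, 1 < ‖w‖ →
        ‖ψ w - cusp d‖ ≤ r → Real.log ‖w‖ ≤ Real.exp (-((1 - δ) * (kappa d / √r)))) ∧
      Tendsto (fun r : ℝ => √r * Real.log (1 / harm ψ (cusp d) r)) (𝓝[>] 0) (𝓝 (kappa d)) ∧
      ∀ F : ℂ → ℂ, Extends F ψ → F 1 = cusp d ∧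
        ∀ δ : ℝ, 0 < δ → ∃ t₀ : ℝ, 0 < t₀ ∧ ∀ t : ℝ, 0 < t → t ≤ t₀ →
          ∃ ξ : ℂ, ‖ξ‖ = 1 ∧ ‖ξ - 1‖ ≤ t ∧
            (1 - δ) * kappa d ^ 2 / Real.log (1 / t) ^ 2 ≤ ‖F ξ - F 1‖ := by
  have hd : 2 ≤ d := by omega
  have hdR : (3 : ℝ) ≤ d := by exact_mod_cast hd3
  obtain ⟨β, hβ⟩ := Pool.Agent.H713R2.exists_beta (d := d) hd
  have hs : s d = Pool.Agent.H712R2.sr d := by
    unfold s Pool.Agent.H712R2.sr
    rw [Real.rpow_def_of_pos (by linarith)]
    congr 1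
    ring
  have hr : cusp d = Pool.Agent.H712R2.rr d := by
    unfold cusp Pool.Agent.H712R2.rr
    rw [hs]
  have hspos := Pool.Agent.H712R2.sr_pos d
  have hk : Pool.Agent.Q186.Cusp.kap d = kappa d := by
    unfold Pool.Agent.Q186.Cusp.kap kappa
    rw [Pool.Agent.Q186.Cusp.AA_eq hd, hs, div_eq_mul_inv, ← Real.sqrt_inv, inv_div]
  have hpos : 0 < kappa d := by
    rw [← hk]
    exact Pool.Agent.Q186.Cusp.kap_pos hd
  refine ⟨⟨?_, ?_, ?_⟩, ⟨_, Pool.Agent.H713R2.exteriorMap_of_beta hβ⟩, ?_⟩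
  · unfold cusp
    ring
  · rw [hs, Pool.Agent.H712R2.sr_pow hd]
    field_simp
  · rw [hr]
    exact Pool.Agent.Q186.Cusp.cusp_frontier hd
  intro ψ hψ
  rw [hr]
  refine ⟨?_, ?_, ?_, ?_⟩
  · have h1 := Pool.Agent.Q186.Cusp.ray_lim hd hψ
    rw [hk] at h1
    exact h1
  · intro δ hδ
    obtain ⟨r₀, hr₀, H⟩ := Pool.Agent.Q186.Cusp.green_up hd (δ := min δ 1) (lt_min hδ one_pos)
      (min_le_right _ _)
    refine ⟨r₀, hr₀, ?_⟩
    intro r hr hrr w hw hwr
    have h1 := H r hr hrr (ψ w) hwr _ (Pool.Agent.Q186.Cen.rate_psi hd hψ hw)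
    refine h1.trans ?_
    rw [Pool.Agent.Q186.Cusp.kap_eq hd, hk]
    apply Real.exp_le_exp.2
    apply neg_le_neg
    apply mul_le_mul_of_nonneg_right _ (by positivity)
    have := min_le_left δ 1
    linarith
  · have h1 := Pool.Agent.Q186.Cusp.harm_lim hd hψ
    rw [hk] at h1
    exact h1
  · intro F hF
    have hF1 := Pool.Agent.Q186.Cusp.F_one hd hψ hF.1 hF.2
    refine ⟨hF1, ?_⟩
    intro δ hδ
    obtain ⟨t₀, ht₀, ht₀1, H⟩ := Pool.Agent.Q186.Cusp.loop hd (δ := min δ (1 / 2))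
      (lt_min hδ (by norm_num)) (lt_of_le_of_lt (min_le_right _ _) (by norm_num))
    refine ⟨t₀, ht₀, ?_⟩
    intro t ht htt
    obtain ⟨ξ, h1, h2, h3⟩ := H ψ hψ F hF.1 hF.2 t ht htt
    refine ⟨ξ, h1, h2, ?_⟩
    rw [hF1]
    rw [hk] at h3
    refine le_trans ?_ h3
    have := min_le_left δ (1 / 2)
    gcongr

end Pool.Agent.Results.MP_fcb70f_an.CuspAsymptotics
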