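import Mathlib
import Pool.Prelude.Def_F_c31e40fa
import Pool.Agent.Y736.HG9

set_option autoImplicit false

/-! # Exponents of the harmonic measure and of Green's function of the Multibrot sets, and the speed
of the Carathéodory loop

At every parameter `c₀` of the Multibrot set of degree `d ≥ 3` whose critical value has a positive
Lyapunov exponent `χ` the harmonic measure of the disc of radius `r` about `c₀` and the maximum of
Green's function on this disc are `r ^ (log d / χ + o(1))`; and if the exterior map has a continuous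
extension to the circle (this is equivalent to the local connectivity of the Multibrot set), then
the boundary loop moves near `c₀` at least as fast as `δ ^ (χ / log d + o(1))`. -/

open Filter Topology Set Metric MeasureTheory Complex N62a1eb23

namespace Pool.Agent.Results.MP_fcb70f_an.HarmonicExponents

open Pool.Agent.H713R2

/-- the angles `t ∈ (0, 2π]` of the external rays of the Multibrot set landing at distance less than
`r` from `c₀` (`ψ` is the exterior map) -/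
def angles (ψ : ℂ → ℂ) (c₀ : ℂ) (r : ℝ) : Set ℝ :=
  {t | t ∈ Ioc 0 (2 * Real.pi) ∧ ∃ ζ ∈ ball c₀ r,
    Tendsto (fun ρ : ℝ => ψ (ρ * exp (t * I))) (𝓝[>] 1) (𝓝 ζ)}

/-- the harmonic measure of the disc of radius `r` about `c₀`, up to the factor `2π` -/
noncomputable def harm (ψ : ℂ → ℂ) (c₀ : ℂ) (r : ℝ) : ℝ := (volume (angles ψ c₀ r)).toReal

/-- the maximum of Green's function on the closed disc of radius `r` about `c₀`: Green's function is
`log ‖w‖` at the point `ψ w` -/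
noncomputable def green (ψ : ℂ → ℂ) (c₀ : ℂ) (r : ℝ) : ℝ :=
  sSup {x | ∃ w : ℂ, 1 < ‖w‖ ∧ ‖ψ w - c₀‖ ≤ r ∧ Real.log ‖w‖ = x}

/-- The critical value `c₀` of `z ↦ z ^ d + c₀` has the positive Lyapunov exponent `χ`. -/
def LyapunovExponent (d : ℕ) (c₀ : ℂ) (χ : ℝ) : Prop :=
  0 < χ ∧ Tendsto (fun n : ℕ => Real.log ‖deriv ((fun z : ℂ => z ^ d + c₀)^[n]) c₀‖ / n) atTop (𝓝 χ)

/-- **Exponents of the harmonic measure and of Green's function; the speed of the loop.** -/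
theorem result (d : ℕ) (hd3 : 3 ≤ d) :
    (∃ ψ : ℂ → ℂ, IsExteriorMap (multibrotSet d) ψ) ∧
    ∀ ψ : ℂ → ℂ, IsExteriorMap (multibrotSet d) ψ →
    ∀ (c₀ : ℂ) (χ : ℝ), c₀ ∈ multibrotSet d → LyapunovExponent d c₀ χ →
      Tendsto (fun r => Real.log (harm ψ c₀ r) / Real.log r) (𝓝[>] 0) (𝓝 (Real.log d / χ)) ∧
      Tendsto (fun r => Real.log (green ψ c₀ r) / Real.log r) (𝓝[>] 0) (𝓝 (Real.log d / χ)) ∧
      ∀ F : ℂ → ℂ, ContinuousOn F {w | 1 ≤ ‖w‖} → (∀ w, 1 < ‖w‖ → F w = ψ w) →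
        ∀ ζ : ℂ, ‖ζ‖ = 1 → F ζ = c₀ → ∀ ε : ℝ, 0 < ε → ∀ᶠ δ : ℝ in 𝓝[>] 0,
          ∃ ξ : ℂ, ‖ξ‖ = 1 ∧ ‖ξ - ζ‖ ≤ δ ∧ δ ^ (χ / Real.log d + ε) ≤ ‖F ξ - F ζ‖ := by
  have hd : 2 ≤ d := by omega
  obtain ⟨β, hβ⟩ := exists_beta (d := d) hd
  refine ⟨⟨_, exteriorMap_of_beta hβ⟩, ?_⟩
  intro ψ hψ c₀ χ hc₀ hχ
  have h : Pool.Agent.Y298.CA.Lyap d χ c₀ := ⟨hχ.1, hc₀, hχ.2⟩
  exact ⟨Pool.Agent.Y736.HG.vol_exp hd h hψ, Pool.Agent.Y736.HG.sup_exp hd h hψ,
    fun F hF hE ζ hζ hFζ ε hε => Pool.Agent.Y736.HG.loop hd h hψ hF hE hζ hFζ hε⟩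

end Pool.Agent.Results.MP_fcb70f_an.HarmonicExponents
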