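import Mathlib
import Pool.Prelude.Def_F_c31e40fa
import Pool.Agent.Y736.RN.L
import Pool.Agent.Y736.RN.M

set_option autoImplicit false

/-! # Flatness of the Multibrot sets of degree `d ≥ 3` at infinitely renormalizable parameters -/

open Filter Topology Set Metric MeasureTheory Complex N62a1eb23

namespace Pool.Agent.Results.MP_fcb70f_an.RenormalizableFlatness

open Pool.Agent.H713R2

/-- The angles `t ∈ (0, 2π]` of the external rays landing at distance less than `r` from `c₀`. Up to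
the factor `2π` its length is the harmonic measure (from infinity) of the disc of radius `r`. -/
def angles (ψ : ℂ → ℂ) (c₀ : ℂ) (r : ℝ) : Set ℝ :=
  {t | t ∈ Ioc 0 (2 * Real.pi) ∧ ∃ ζ ∈ ball c₀ r,
    Tendsto (fun ρ : ℝ => ψ (ρ * exp (t * I))) (𝓝[>] 1) (𝓝 ζ)}

/-- The harmonic measure, up to the factor `2π`. -/
noncomputable def harm (ψ : ℂ → ℂ) (c₀ : ℂ) (r : ℝ) : ℝ := (volume (angles ψ c₀ r)).toReal

/-- The maximum of Green's function of the Multibrot set over a disc: Green's function is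
`log ‖w‖` at the point `ψ w`. -/
noncomputable def green (ψ : ℂ → ℂ) (c₀ : ℂ) (r : ℝ) : ℝ :=
  sSup {x | ∃ w : ℂ, 1 < ‖w‖ ∧ ‖ψ w - c₀‖ ≤ r ∧ Real.log ‖w‖ = x}

/-- The derivative at `c₀` of the `n`-th iterate of the critical point as a function of the
parameter. -/
noncomputable def D' (d : ℕ) (c₀ : ℂ) (n : ℕ) : ℝ :=
  ‖deriv (fun c : ℂ => (fun z : ℂ => z ^ d + c)^[n] 0) c₀‖

/-- `g` is proper of degree at most `d` from the bounded open set `U` onto a set which contains the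
closure of `U`. Unicritical polynomial-like maps of degree `d` have this property. -/
def PolynomialLike (d : ℕ) (g : ℂ → ℂ) (U : Set ℂ) : Prop :=
  IsOpen U ∧ Bornology.IsBounded U ∧ closure U ⊆ g '' U ∧
    (∀ K ⊆ g '' U, IsCompact K → IsCompact {z | z ∈ U ∧ g z ∈ K}) ∧
    ∀ w ∈ g '' U, {z | z ∈ U ∧ g z = w}.encard ≤ d

/-- `z ↦ z ^ d + c` is renormalizable of period `p`. -/
def Renormalizable (d : ℕ) (c : ℂ) (p : ℕ) : Prop :=
  ∃ U : Set ℂ, PolynomialLike d ((fun z : ℂ => z ^ d + c)^[p]) U ∧ (0 : ℂ) ∈ U ∧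
    ∀ n : ℕ, 1 ≤ n → (fun z : ℂ => z ^ d + c)^[n * p] 0 ∈ U

/-- `z ↦ z ^ d + c` is renormalizable of period `p` with bounds `C`: `U` contains the discs of some
radius `r` about the points `f^[n p] 0`, and its image has diameter at most `C r`. Under a priori
bounds one has `Bounds d C c p` for a fixed `C` and infinitely many `p`. -/
def Bounds (d : ℕ) (C : ℝ) (c : ℂ) (p : ℕ) : Prop :=
  ∃ (U : Set ℂ) (r : ℝ), PolynomialLike d ((fun z : ℂ => z ^ d + c)^[p]) U ∧ 0 < r ∧
    (∀ n : ℕ, ball ((fun z : ℂ => z ^ d + c)^[n * p] 0) r ⊆ U) ∧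
    ∀ z ∈ U, ∀ z' ∈ U,
      ‖(fun z : ℂ => z ^ d + c)^[p] z - (fun z : ℂ => z ^ d + c)^[p] z'‖ ≤ C * r

/-- Flatness at all scales: the harmonic measure and Green's function decay faster than every power,
the derivatives with respect to the parameter grow subexponentially, and if `ψ` has a continuous
extension `F` to the circle (local connectivity of the Multibrot set) and `F ζ = c₀`, then the image
under `F` of every arc of small radius `δ` about `ζ` contains a point at distance at least `δ ^ α`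
from `c₀`, for every `α > 0`. -/
def Flat (d : ℕ) (ψ : ℂ → ℂ) (c₀ : ℂ) : Prop :=
  (∀ κ : ℝ, 0 < κ → ∀ᶠ r : ℝ in 𝓝[>] 0, harm ψ c₀ r < r ^ κ ∧ green ψ c₀ r < r ^ κ) ∧
  (∀ a : ℝ, 0 < a → ∀ᶠ n : ℕ in atTop, D' d c₀ n < Real.exp (a * n)) ∧
  ∀ F : ℂ → ℂ, ContinuousOn F {w : ℂ | 1 ≤ ‖w‖} → (∀ w : ℂ, 1 < ‖w‖ → F w = ψ w) →
    ∀ ζ : ℂ, ‖ζ‖ = 1 → F ζ = c₀ → ∀ α : ℝ, 0 < α → ∀ᶠ δ : ℝ in 𝓝[>] 0,
      ∃ ξ : ℂ, ‖ξ‖ = 1 ∧ ‖ξ - ζ‖ ≤ δ ∧ δ ^ α ≤ ‖F ξ - F ζ‖

/-- Let `d ≥ 3`. The exterior map `ψ` of the Multibrot set `M_d` exists, and `M_d` is flat at every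
infinitely renormalizable parameter outside a set of Hausdorff dimension zero (in particular this set
is totally disconnected and has measure zero). It is flat at every infinitely renormalizable
parameter at which the bounds are subexponential in the period for infinitely many periods, in
particular at those with a priori bounds. For every period `p` the renormalizable parameters of
period `p` at which the harmonic measure (or Green's function) of the discs of radius `r` is at least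
`r ^ κ` for arbitrarily small `r` have Hausdorff dimension at most `κ / p`, and those at which the
upper exponent of `D'` is at least `χ` have dimension at most `log d / (p χ)`. -/
theorem result (d : ℕ) (hd3 : 3 ≤ d) :
    (∃ ψ : ℂ → ℂ, IsExteriorMap (multibrotSet d) ψ) ∧
    ∀ ψ : ℂ → ℂ, IsExteriorMap (multibrotSet d) ψ →
      (dimH {c : ℂ | {p : ℕ | Renormalizable d c p}.Infinite ∧ ¬ Flat d ψ c} = 0 ∧
        IsTotallyDisconnected {c : ℂ | {p : ℕ | Renormalizable d c p}.Infinite ∧ ¬ Flat d ψ c} ∧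
        volume {c : ℂ | {p : ℕ | Renormalizable d c p}.Infinite ∧ ¬ Flat d ψ c} = 0) ∧
      (∀ c : ℂ, (∀ ε : ℝ, 0 < ε → {p : ℕ | Bounds d (Real.exp (ε * p)) c p}.Infinite) →
        Flat d ψ c) ∧
      ∀ p : ℕ, 1 ≤ p →
        (∀ κ : ℝ, 0 < κ →
          dimH {c : ℂ | Renormalizable d c p ∧ ∃ᶠ r : ℝ in 𝓝[>] 0, r ^ κ ≤ harm ψ c r} ≤
            ENNReal.ofReal (κ / p) ∧
          dimH {c : ℂ | Renormalizable d c p ∧ ∃ᶠ r : ℝ in 𝓝[>] 0, r ^ κ ≤ green ψ c r} ≤
            ENNReal.ofReal (κ / p)) ∧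
        ∀ χ : ℝ, 0 < χ →
          dimH {c : ℂ | Renormalizable d c p ∧ ∀ a : ℝ, a < χ →
            ∃ᶠ n : ℕ in atTop, Real.exp (a * n) ≤ D' d c n} ≤
              ENNReal.ofReal (Real.log d / (p * χ)) := by
  have hd : 2 ≤ d := by omega
  obtain ⟨β, hβ⟩ := exists_beta (d := d) hd
  refine ⟨⟨_, exteriorMap_of_beta hβ⟩, ?_⟩
  intro ψ hψ
  have hdim : dimH {c : ℂ | {p : ℕ | Renormalizable d c p}.Infinite ∧ ¬ Flat d ψ c} = 0 := by
    apply Pool.Agent.Y736.RN.dim_inf hd hψ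
    rintro c ⟨h1, h2⟩
    refine ⟨h1, ?_⟩
    by_contra hcon
    push Not at hcon
    obtain ⟨p, hp, hp0⟩ := h1.exists_gt 0
    exact h2 (Pool.Agent.Y736.RN.not_big_flat hd hψ
      (Pool.Agent.Y736.RN.ren_mem (d := d) hp0 hp) hcon)
  refine ⟨⟨hdim, Pool.Agent.Y736.RN.totallyDisconnected_of_dimH (by rw [hdim]; norm_num),
    Pool.Agent.Y736.RN.volume_zero_of_dimH (by rw [hdim]; norm_num)⟩, ?_, ?_⟩
  · intro c h
    obtain ⟨p, ⟨U, r, hU, hr, hball, hdiam⟩, hp0⟩ := (h 1 one_pos).exists_gt 0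
    have hren : Renormalizable d c p := by
      refine ⟨U, hU, ?_, fun n _ => hball n (mem_ball_self hr)⟩
      have h1 := hball 0 (mem_ball_self hr)
      simpa using h1
    have hc := Pool.Agent.Y736.RN.ren_mem (d := d) hp0 hren
    apply Pool.Agent.Y736.RN.not_big_flat hd hψ hc
    apply Pool.Agent.Y736.RN.not_big_of_weak hd hψ hc
    intro ε hε
    refine (h ε hε).mono ?_
    rintro q ⟨U, r, _, hr, hball, hdiam⟩
    exact ⟨U, r, hr, hball, hdiam⟩
  · intro p hp
    refine ⟨?_, ?_⟩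
    · intro κ hκ
      refine ⟨(dimH_mono ?_).trans (Pool.Agent.Y736.RN.dim_big hd hp hψ hκ),
        (dimH_mono ?_).trans (Pool.Agent.Y736.RN.dim_big hd hp hψ hκ)⟩
      · rintro c ⟨h1, h2⟩
        exact ⟨h1, Pool.Agent.Y736.RN.big_of_vol hd hψ
          (Pool.Agent.Y736.RN.ren_mem (d := d) hp h1) hκ h2⟩
      · rintro c ⟨h1, h2⟩
        exact ⟨h1, Pool.Agent.Y736.RN.big_of_green h2⟩
    · intro χ hχ
      exact Pool.Agent.Y736.RN.dim_deriv (d := d) hd hp hχ

end Pool.Agent.Results.MP_fcb70f_an.RenormalizableFlatness
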