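import Mathlib
import Pool.Prelude.Def_F_c31e40fa
import Pool.Agent.Q186.CoarseLC3

/-!
# The modulus of local connectivity of the Multibrot sets at the scale `1 / n`

For `x, y` in the Multibrot set `M_n` let `D(x, y)` be the least diameter of a continuum in `M_n`
which contains `x` and `y`. Local connectivity of `M_n` says that `D(x, y)` tends to zero with
`|x - y|`. We determine the size of `D` at the scales above `2 π / (n - 1)`, with the exact
leading constant: the maximum of `D(x, y)` over the pairs with `|x - y| ≤ K / n`, where `K > 2 π`, is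
`(log n + O(1)) / n`. So in large degree there are pairs whose distance inside `M_n` is `log n`
times larger than their distance, and no pair is worse than that up to the factor `1 + o(1)`.
-/

set_option autoImplicit false

open Metric

namespace Pool.Agent.Results.MP_fcb70f_an.SharpCoarseModulus

open N62a1eb23

/-- Bounds from above and from below for the modulus of local connectivity of all Multibrot
sets `M_n`, `n ≥ 2`.

(1) Any two points `x, y` of `M_n` lie in a continuum inside `M_n` of diameter at most
`(1 + 28 log n / n) |x - y| + (log n + 56) / n`.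

(2) For every `δ` with `2 π / (n - 1) ≤ δ ≤ 2` there are points `x, y` of `M_n` with
`|x - y| ≤ δ` such that every connected subset of `M_n` which contains both has diameter at least
`√(δ ^ 2 + (log n / n) ^ 2) - 34 (1 + δ log n) / n`. -/
theorem result (n : ℕ) (hn : 2 ≤ n) :
    (∀ x ∈ multibrotSet n, ∀ y ∈ multibrotSet n, ∃ S ⊆ multibrotSet n,
      IsCompact S ∧ IsConnected S ∧ x ∈ S ∧ y ∈ S ∧
        diam S ≤ (1 + 28 * Real.log n / n) * dist x y + (Real.log n + 56) / n) ∧
    (∀ δ : ℝ, 2 * Real.pi / ((n : ℝ) - 1) ≤ δ → δ ≤ 2 →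
      ∃ x ∈ multibrotSet n, ∃ y ∈ multibrotSet n, dist x y ≤ δ ∧
        ∀ S ⊆ multibrotSet n, IsPreconnected S → x ∈ S → y ∈ S →
          √(δ ^ 2 + (Real.log n / n) ^ 2) - 34 * (1 + δ * Real.log n) / n ≤ diam S) :=
  ⟨fun _ hx _ hy => Pool.Agent.Q186.CLC.upper hn hx hy,
    fun _ h1 h2 => Pool.Agent.Q186.CLC.lower hn h1 h2⟩

end Pool.Agent.Results.MP_fcb70f_an.SharpCoarseModulus
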